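import Pool.Agent.P.MP_e94690_lc.Five

set_option autoImplicit false

namespace Pool.Agent.Results.MP_e94690_lc.TriangleFree

/-- Every finite triangle-free graph of maximum degree at most six is 5-colourable. -/
theorem result :
    ∀ (V : Type) [Fintype V] (G : SimpleGraph V) [DecidableRel G.Adj],
      G.maxDegree ≤ 6 → G.CliqueFree 3 → G.Colorable 5 :=
  Pool.Agent.P.MP_e94690_lc.colorable_five

end Pool.Agent.Results.MP_e94690_lc.TriangleFree
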